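import Pool.Agent.MP_64f7e5_co.Glue

namespace Pool.Agent.MP_64f7e5_co

open Finset

/-- The graph on `Fin m` with the given neighbourhood masks. -/
def maskG {m : ℕ} (l : List ℕ)
    (hs : ∀ a b : Fin m, (l.getD a 0).testBit a = false ∧
      (l.getD a 0).testBit b = (l.getD b 0).testBit a) : SimpleGraph (Fin m) where
  Adj a b := (l.getD a 0).testBit b = true
  symm := ⟨fun a b h => by rw [← (hs a b).2]; exact h⟩
  loopless := ⟨fun a h => by
    rw [(hs a a).1] at h
    exact absurd h (by decide)⟩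

instance {m : ℕ} (l : List ℕ) (hs) : DecidableRel (maskG (m := m) l hs).Adj := fun a b =>
  inferInstanceAs (Decidable ((l.getD a 0).testBit b = true))

section small

variable {W : Type} {T : Finset W}

lemma sub0 (h : T.card ≤ 0) (u : W) (hu : u ∈ T) : False := by
  rw [Nat.le_zero, Finset.card_eq_zero] at h
  rw [h] at hu
  simp at hu

lemma sub1 [Inhabited W] (h : T.card ≤ 1) : ∃ a, ∀ u ∈ T, u = a := by
  obtain ⟨a, ha⟩ := Finset.card_le_one_iff_subset_singleton.1 h
  exact ⟨a, fun u hu => Finset.mem_singleton.1 (ha hu)⟩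

lemma sub1' {x : W} (hx : x ∈ T) (h : T.card ≤ 1) : ∀ u ∈ T, u = x :=
  fun u hu => Finset.card_le_one.1 h u hu x hx

lemma sub2' [DecidableEq W] {x : W} (hx : x ∈ T) (h : T.card ≤ 2) :
    ∃ a, ∀ u ∈ T, u = x ∨ u = a := by
  have : Inhabited W := ⟨x⟩
  have h1 := Finset.card_erase_of_mem hx
  obtain ⟨a, ha⟩ := sub1 (T := T.erase x) (by omega)
  refine ⟨a, fun u hu => ?_⟩
  by_cases hux : u = x
  · exact Or.inl hux
  · exact Or.inr (ha u (Finset.mem_erase.2 ⟨hux, hu⟩))

lemma sub2 [DecidableEq W] [Inhabited W] (h : T.card ≤ 2) :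
    ∃ a b, ∀ u ∈ T, u = a ∨ u = b := by
  rcases T.eq_empty_or_nonempty with h0 | ⟨x, hx⟩
  · subst h0
    exact ⟨default, default, fun u hu => absurd hu (Finset.notMem_empty _)⟩
  · obtain ⟨a, ha⟩ := sub2' hx h
    exact ⟨x, a, ha⟩

lemma sub2'' [DecidableEq W] {x y : W} (hx : x ∈ T) (hy : y ∈ T) (hxy : x ≠ y)
    (h : T.card ≤ 2) : ∀ u ∈ T, u = x ∨ u = y := by
  have h1 := Finset.card_erase_of_mem hx
  intro u hu
  by_cases hux : u = x
  · exact Or.inl hux
  · exact Or.inr (sub1' (T := T.erase x) (Finset.mem_erase.2 ⟨hxy.symm, hy⟩) (by omega) u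
      (Finset.mem_erase.2 ⟨hux, hu⟩))

lemma sub3' [DecidableEq W] {x : W} (hx : x ∈ T) (h : T.card ≤ 3) :
    ∃ a b, ∀ u ∈ T, u = x ∨ u = a ∨ u = b := by
  have : Inhabited W := ⟨x⟩
  have h1 := Finset.card_erase_of_mem hx
  obtain ⟨a, b, ha⟩ := sub2 (T := T.erase x) (by omega)
  refine ⟨a, b, fun u hu => ?_⟩
  by_cases hux : u = x
  · exact Or.inl hux
  · exact Or.inr (ha u (Finset.mem_erase.2 ⟨hux, hu⟩))

lemma sub3'' [DecidableEq W] {x y : W} (hx : x ∈ T) (hy : y ∈ T) (hxy : x ≠ y)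
    (h : T.card ≤ 3) : ∃ a, ∀ u ∈ T, u = x ∨ u = y ∨ u = a := by
  have h1 := Finset.card_erase_of_mem hx
  obtain ⟨a, ha⟩ := sub2' (T := T.erase x) (Finset.mem_erase.2 ⟨hxy.symm, hy⟩) (by omega)
  refine ⟨a, fun u hu => ?_⟩
  by_cases hux : u = x
  · exact Or.inl hux
  · exact Or.inr (ha u (Finset.mem_erase.2 ⟨hux, hu⟩))

lemma con_of_lev {H : SimpleGraph W} {aS : W → Prop} (lev : W → ℕ)
    (h : ∀ w, aS w ∨ ∃ u, H.Adj w u ∧ lev u < lev w) : ∀ w, ∃ u, aS u ∧ H.Reachable w u := by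
  have key : ∀ m w, lev w = m → ∃ u, aS u ∧ H.Reachable w u := by
    intro m
    induction m using Nat.strong_induction_on with
    | _ m ih =>
      intro w hw
      rcases h w with h1 | ⟨u, hu, hlt⟩
      · exact ⟨w, h1, SimpleGraph.Reachable.refl _⟩
      · obtain ⟨y, hy, hy2⟩ := ih (lev u) (by omega) u rfl
        exact ⟨y, hy, hu.reachable.trans hy2⟩
  exact fun w => key _ w rfl

end small

/-! ### The starting pointed graph -/

/-- masks -/
def Pm : List ℕ := [372, 348, 419, 434, 619, 669, 659, 620, 15, 240]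

/-- The first block (with port `9`). -/
def PG : SimpleGraph (Fin 10) := maskG Pm (by decide +kernel)

instance : DecidableRel PG.Adj := inferInstanceAs (DecidableRel (maskG Pm _).Adj)

/-- witnesses -/
def Pw (w : Fin 10) : Finset (Fin 10) :=
  ((([[3, 7], [0, 5], [3, 4], [0, 6], [2, 7], [1, 6], [2, 5], [0, 4], [4, 5], []] :
    List (List (Fin 10))).getD w [])).toFinset

/-- levels -/
def Pf (w : Fin 10) : ℕ := ([1, 1, 1, 1, 2, 2, 2, 2, 0, 3] : List ℕ).getD w 0

theorem P_good : Good PG 9 2 3 where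
  A0 := by
    intro S hS hd
    by_contra hcon
    obtain ⟨a, ha⟩ := sub1 (T := S) (by omega)
    obtain ⟨w, hw, hwa⟩ : ∃ w, w ≠ 9 ∧ ¬ PG.Adj w a := by
      clear ha
      revert a
      decide +kernel
    obtain ⟨u, hu, hwu⟩ := hd w hw
    rw [ha u hu] at hwu
    exact hwa hwu
  A1 := by
    intro S hS hd
    by_contra hcon
    obtain ⟨a, b, ha⟩ := sub2 (T := S) (by omega)
    obtain ⟨w, hwa, hwb⟩ : ∃ w, ¬ PG.Adj w a ∧ ¬ PG.Adj w b := by
      clear ha
      revert a b
      decide +kernel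
    obtain ⟨u, hu, hwu⟩ := hd w
    rcases ha u hu with rfl | rfl
    · exact hwa hwu
    · exact hwb hwu
  B0 := by
    intro S hS hd
    by_contra hcon
    obtain ⟨a, ha⟩ := sub2' (T := S) hS (by omega)
    obtain ⟨w, hw, hwa, hwb⟩ : ∃ w, w ≠ 9 ∧ ¬ PG.Adj w 9 ∧ ¬ PG.Adj w a := by
      clear ha
      revert a
      decide +kernel
    obtain ⟨u, hu, hwu⟩ := hd w hw
    rcases ha u hu with rfl | rfl
    · exact hwa hwu
    · exact hwb hwu
  a0 := ⟨{1, 2}, by decide +kernel⟩
  b1 := ⟨{9, 0, 4}, by decide +kernel⟩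
  crit := fun v hv => ⟨Pw v, by
    revert v
    decide +kernel⟩
  dep := ⟨Pf, by decide +kernel, by decide +kernel, 8, by decide +kernel⟩
  con := by
    intro v
    obtain ⟨u, hu, hv⟩ := con_of_lev (H := PG) (aS := fun w => w = 9) (fun w => 3 - Pf w)
      (by decide +kernel) v
    rwa [← hu]

/-! ### The block `X` -/

/-- masks -/
def Xm : List ℕ := [372, 348, 419, 434, 875, 925, 915, 876, 255, 240]

/-- The block `X`. -/
def XG : SimpleGraph (Fin 10) := maskG Xm (by decide +kernel)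

instance : DecidableRel XG.Adj := inferInstanceAs (DecidableRel (maskG Xm _).Adj)

/-- attached vertices -/
def XS (w : Fin 10) : Prop := w.val < 4

instance : DecidablePred XS := fun w => inferInstanceAs (Decidable (w.val < 4))

/-- witnesses -/
def Xw (w : Fin 10) : Finset (Fin 10) :=
  ((([[3, 7], [0, 5], [3, 4], [0, 6], [2, 7], [1, 6], [2, 5], [0, 4], [9], []] :
    List (List (Fin 10))).getD w [])).toFinset

/-- levels -/
def Xf (w : Fin 10) : ℕ := ([1, 1, 1, 1, 2, 2, 2, 2, 2, 3] : List ℕ).getD w 0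

set_option synthInstance.maxSize 1024 in
theorem X_block : Block XG XS 9 2 3 where
  L1a := by
    intro T hT hd
    by_contra hcon
    rcases hd 8 (by decide) with h | ⟨u, hu, -⟩
    · exact absurd h (by decide)
    · exact sub0 (by omega) u hu
  L1b := by
    intro T hT hd
    by_contra hcon
    have ha := sub1' hT (by omega)
    rcases hd 8 (by decide) with h | ⟨u, hu, hwu⟩
    · exact absurd h (by decide)
    · rw [ha u hu] at hwu
      revert hwu
      decide +kernel
  L2 := by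
    intro T hT hd
    by_contra hcon
    obtain ⟨a, ha⟩ := sub1 (T := T) (by omega)
    obtain ⟨w, hw, hwa⟩ : ∃ w, ¬ XS w ∧ ¬ XG.Adj w a := by
      clear ha
      revert a
      decide +kernel
    rcases hd w with h | ⟨u, hu, hwu⟩
    · exact hw h
    · rw [ha u hu] at hwu
      exact hwa hwu
  L3a := by
    rintro T hT ⟨a, haT, haS⟩ hd
    by_contra hcon
    have ha := sub1' haT (by omega)
    obtain ⟨w, hw, hwa⟩ : ∃ w, w ≠ 9 ∧ ¬ XG.Adj w a := by
      clear ha haT haS hd
      revert a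
      decide +kernel
    obtain ⟨u, hu, hwu⟩ := hd w hw
    rw [ha u hu] at hwu
    exact hwa hwu
  L3b := by
    rintro T hT ⟨a, haT, haS⟩ hd
    by_contra hcon
    have ha := sub2'' hT haT (by rintro rfl; exact absurd haS (by decide)) (by omega)
    obtain ⟨w, hw, hwa, hwb⟩ : ∃ w, w ≠ 9 ∧ ¬ XG.Adj w 9 ∧ ¬ XG.Adj w a := by
      clear ha haT hd
      revert a
      decide +kernel
    obtain ⟨u, hu, hwu⟩ := hd w hw
    rcases ha u hu with rfl | rfl
    · exact hwa hwu
    · exact hwb hwu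
  L4 := by
    rintro T hT ⟨a, haT, haS⟩ hd
    by_contra hcon
    obtain ⟨b, ha⟩ := sub2' haT (by omega)
    obtain ⟨w, hwa, hwb⟩ : ∃ w, ¬ XG.Adj w a ∧ ¬ XG.Adj w b := by
      clear ha haT hd
      revert a b
      decide +kernel
    obtain ⟨u, hu, hwu⟩ := hd w
    rcases ha u hu with rfl | rfl
    · exact hwa hwu
    · exact hwb hwu
  e0 := ⟨{0, 8}, by decide +kernel⟩
  e1 := ⟨{9, 4}, by decide +kernel⟩
  cI := fun w hw => ⟨Xw w, by
    revert w
    decide +kernel⟩
  cA := ⟨{4, 5}, by decide +kernel⟩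
  cB := ⟨{0, 5}, by decide +kernel⟩
  cC := ⟨{0, 1, 6}, by decide +kernel⟩
  dep := ⟨Xf, by decide +kernel, by decide +kernel, by decide +kernel⟩
  con := con_of_lev Xf (by decide +kernel)

/-! ### The last block -/

/-- masks -/
def Fm : List ℕ := [116, 92, 163, 178, 363, 413, 403, 364, 240]

/-- The last block. -/
def FG : SimpleGraph (Fin 9) := maskG Fm (by decide +kernel)

instance : DecidableRel FG.Adj := inferInstanceAs (DecidableRel (maskG Fm _).Adj)

/-- attached vertices -/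
def FS (w : Fin 9) : Prop := w.val < 4

instance : DecidablePred FS := fun w => inferInstanceAs (Decidable (w.val < 4))

/-- witnesses -/
def Fw (w : Fin 9) : Finset (Fin 9) :=
  ((([[3, 7], [0, 5], [3, 4], [0, 6], [2, 7], [1, 6], [2, 5], [0, 4], [1, 2]] :
    List (List (Fin 9))).getD w [])).toFinset

/-- levels -/
def Ff (w : Fin 9) : ℕ := ([1, 1, 1, 1, 2, 2, 2, 2, 3] : List ℕ).getD w 0

theorem F_end : EndBlock FG FS 3 where
  F1 := by
    intro T hd
    by_contra hcon
    obtain ⟨a, ha⟩ := sub1 (T := T) (by omega)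
    obtain ⟨w, hw, hwa⟩ : ∃ w, ¬ FS w ∧ ¬ FG.Adj w a := by
      clear ha
      revert a
      decide +kernel
    rcases hd w with h | ⟨u, hu, hwu⟩
    · exact hw h
    · rw [ha u hu] at hwu
      exact hwa hwu
  F2 := by
    rintro T ⟨a, haT, haS⟩ hd
    by_contra hcon
    obtain ⟨b, ha⟩ := sub2' haT (by omega)
    obtain ⟨w, hwa, hwb⟩ : ∃ w, ¬ FG.Adj w a ∧ ¬ FG.Adj w b := by
      clear ha haT hd
      revert a b
      decide +kernel
    obtain ⟨u, hu, hwu⟩ := hd w
    rcases ha u hu with rfl | rfl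
    · exact hwa hwu
    · exact hwb hwu
  Fw := fun w => ⟨Fw w, by
    revert w
    decide +kernel⟩
  Fc := ⟨{4, 5}, by decide +kernel⟩
  Fb := ⟨{0, 5}, by decide +kernel⟩
  Fcc := ⟨{0, 1, 6}, by decide +kernel⟩
  dep := ⟨Ff, by decide +kernel, by decide +kernel, 8, by decide +kernel⟩
  con := con_of_lev Ff (by decide +kernel)

/-! ### The block `M` -/

/-- masks -/
def Mm : List ℕ := [500, 824, 761, 982, 56559, 65175, 65309, 63293, 64715, 64750, 818160, 1046384,
  241648, 1040352, 897008, 752624, 1374208, 1882112, 1272832, 1240064, 983040]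

/-- The block `M`. -/
def MG : SimpleGraph (Fin 21) := maskG Mm (by decide +kernel)

instance : DecidableRel MG.Adj := inferInstanceAs (DecidableRel (maskG Mm _).Adj)

/-- attached vertices -/
def MS (w : Fin 21) : Prop := w.val < 4

instance : DecidablePred MS := fun w => inferInstanceAs (Decidable (w.val < 4))

/-- witnesses -/
def Mw (w : Fin 21) : Finset (Fin 21) :=
  ((([[20, 1, 9], [20, 0, 6], [20, 1, 8], [20, 0, 5], [13, 16], [20, 3, 6], [20, 1, 5], [11, 16],
    [20, 2, 5], [20, 0, 8], [15, 16], [20, 3, 7], [14, 18], [20, 1, 4], [12, 17], [10, 18],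
    [10, 19], [14, 16], [15, 19], [12, 16], []] :
    List (List (Fin 21))).getD w [])).toFinset

/-- levels -/
def Mf (w : Fin 21) : ℕ :=
  ([1, 1, 1, 1, 2, 2, 2, 2, 2, 2, 3, 3, 3, 3, 3, 3, 4, 4, 4, 4, 5] : List ℕ).getD w 0

set_option synthInstance.maxSize 1024 in
theorem M_block : Block MG MS 20 3 5 where
  L1a := by
    intro T hT hd
    by_contra hcon
    obtain ⟨a, ha⟩ := sub1 (T := T) (by omega)
    obtain ⟨w, hw, hwS, hwa⟩ : ∃ w, w ≠ 20 ∧ ¬ MS w ∧ ¬ MG.Adj w a := by
      clear ha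
      revert a
      decide +kernel
    rcases hd w hw with h | ⟨u, hu, hwu⟩
    · exact hwS h
    · rw [ha u hu] at hwu
      exact hwa hwu
  L1b := by
    intro T hT hd
    by_contra hcon
    obtain ⟨a, ha⟩ := sub2' hT (by omega)
    obtain ⟨w, hw, hwS, hwa, hwb⟩ : ∃ w, w ≠ 20 ∧ ¬ MS w ∧ ¬ MG.Adj w 20 ∧ ¬ MG.Adj w a := by
      clear ha
      revert a
      decide +kernel
    rcases hd w hw with h | ⟨u, hu, hwu⟩
    · exact hwS h
    · rcases ha u hu with rfl | rfl
      · exact hwa hwu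
      · exact hwb hwu
  L2 := by
    intro T hT hd
    by_contra hcon
    obtain ⟨a, b, ha⟩ := sub2 (T := T) (by omega)
    obtain ⟨w, hwS, hwa, hwb⟩ : ∃ w, ¬ MS w ∧ ¬ MG.Adj w a ∧ ¬ MG.Adj w b := by
      clear ha
      revert a b
      decide +kernel
    rcases hd w with h | ⟨u, hu, hwu⟩
    · exact hwS h
    · rcases ha u hu with rfl | rfl
      · exact hwa hwu
      · exact hwb hwu
  L3a := by
    rintro T hT ⟨a, haT, haS⟩ hd
    by_contra hcon
    obtain ⟨b, ha⟩ := sub2' haT (by omega)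
    obtain ⟨w, hw, hwa, hwb⟩ : ∃ w, w ≠ 20 ∧ ¬ MG.Adj w a ∧ ¬ MG.Adj w b := by
      clear ha haT hd
      revert a b
      decide +kernel
    obtain ⟨u, hu, hwu⟩ := hd w hw
    rcases ha u hu with rfl | rfl
    · exact hwa hwu
    · exact hwb hwu
  L3b := by
    rintro T hT ⟨a, haT, haS⟩ hd
    by_contra hcon
    obtain ⟨b, ha⟩ := sub3'' hT haT (by rintro rfl; exact absurd haS (by decide)) (by omega)
    obtain ⟨w, hw, hwt, hwa, hwb⟩ : ∃ w, w ≠ 20 ∧ ¬ MG.Adj w 20 ∧ ¬ MG.Adj w a ∧ ¬ MG.Adj w b := by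
      clear ha haT hd
      revert a b
      decide +kernel
    obtain ⟨u, hu, hwu⟩ := hd w hw
    rcases ha u hu with rfl | rfl | rfl
    · exact hwt hwu
    · exact hwa hwu
    · exact hwb hwu
  L4 := by
    rintro T hT ⟨a, haT, haS⟩ hd
    by_contra hcon
    obtain ⟨b, d, ha⟩ := sub3' haT (by omega)
    obtain ⟨w, hwa, hwb, hwd⟩ : ∃ w, ¬ MG.Adj w a ∧ ¬ MG.Adj w b ∧ ¬ MG.Adj w d := by
      clear ha haT hd
      revert a b d
      decide +kernel
    obtain ⟨u, hu, hwu⟩ := hd w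
    rcases ha u hu with rfl | rfl | rfl
    · exact hwa hwu
    · exact hwb hwu
    · exact hwd hwu
  e0 := ⟨{0, 4, 11}, by decide +kernel⟩
  e1 := ⟨{20, 10, 19}, by decide +kernel⟩
  cI := fun w hw => ⟨Mw w, by
    revert w
    decide +kernel⟩
  cA := ⟨{4, 11}, by decide +kernel⟩
  cB := ⟨{0, 11, 16}, by decide +kernel⟩
  cC := ⟨{0, 4, 10, 18}, by decide +kernel⟩
  dep := ⟨Mf, by decide +kernel, by decide +kernel, by decide +kernel⟩
  con := con_of_lev Mf (by decide +kernel)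

end Pool.Agent.MP_64f7e5_co
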