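import Mathlib

namespace Pool.Agent.MP_64f7e5_co

/-- `S` is a total dominating set of `G`: every vertex has a neighbour in `S`. -/
def IsTotalDominating {V : Type*} (G : SimpleGraph V) (S : Finset V) : Prop :=
  ∀ v, ∃ u ∈ S, G.Adj v u

/-- The total domination number of `G` (for graphs without isolated vertices). -/
noncomputable def totalDomNumber {V : Type*} (G : SimpleGraph V) : ℕ :=
  sInf {n | ∃ S : Finset V, S.card = n ∧ IsTotalDominating G S}

/-- `v` has degree one. -/
def IsLeaf {V : Type*} (G : SimpleGraph V) (v : V) : Prop := ∃! u, G.Adj v u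

/-- `G` is `k_t`VC: it has no isolated vertex, `γ_t(G) = k`, and `γ_t(G - v) < γ_t(G)` for every
vertex `v` without a neighbour of degree one. -/
def IsTVC {V : Type*} (G : SimpleGraph V) (k : ℕ) : Prop :=
  (∀ v, ∃ u, G.Adj v u) ∧ totalDomNumber G = k ∧
    ∀ v, (∀ u, G.Adj v u → ¬ IsLeaf G u) → totalDomNumber (G.induce {v}ᶜ) < totalDomNumber G

end Pool.Agent.MP_64f7e5_co
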