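import Pool.Agent.MP_64f7e5_co.Defs

namespace Pool.Agent.MP_64f7e5_co

open Finset

/-- `v` has a neighbour in `S`. -/
abbrev Dm {V : Type} (G : SimpleGraph V) (S : Finset V) (v : V) : Prop := ∃ u ∈ S, G.Adj v u

/-- Attach `W` to the vertex `c` of `G`, the elements of `W` adjacent to `c` being given by `aS`. -/
def glue {V W : Type} (G : SimpleGraph V) (c : V) (H : SimpleGraph W) (aS : W → Prop) :
    SimpleGraph (V ⊕ W) where
  Adj x y := match x, y with
    | .inl a, .inl b => G.Adj a b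
    | .inr a, .inr b => H.Adj a b
    | .inl a, .inr b => a = c ∧ aS b
    | .inr a, .inl b => b = c ∧ aS a
  symm := ⟨by
    rintro (a | a) (b | b) h
    · exact G.symm.symm _ _ h
    · exact h
    · exact h
    · exact H.symm.symm _ _ h⟩
  loopless := ⟨by
    rintro (a | a) h
    · exact G.loopless.irrefl _ h
    · exact H.loopless.irrefl _ h⟩

section

variable {V W : Type} {G : SimpleGraph V} {c : V} {H : SimpleGraph W} {aS : W → Prop}

lemma left_dm {U : Finset (V ⊕ W)} {v : V} (hv : v ≠ c) (h : Dm (glue G c H aS) U (Sum.inl v)) :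
    Dm G U.toLeft v := by
  obtain ⟨(u | u), hu, h⟩ := h
  · exact ⟨u, Finset.mem_toLeft.2 hu, h⟩
  · exact absurd h.1 hv

lemma left_dm_c {U : Finset (V ⊕ W)} (h : Dm (glue G c H aS) U (Sum.inl c)) :
    Dm G U.toLeft c ∨ ∃ u ∈ U.toRight, aS u := by
  obtain ⟨(u | u), hu, h⟩ := h
  · exact Or.inl ⟨u, Finset.mem_toLeft.2 hu, h⟩
  · exact Or.inr ⟨u, Finset.mem_toRight.2 hu, h.2⟩

lemma right_dm {U : Finset (V ⊕ W)} {w : W} (h : Dm (glue G c H aS) U (Sum.inr w)) :
    (c ∈ U.toLeft ∧ aS w) ∨ Dm H U.toRight w := by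
  obtain ⟨(u | u), hu, h⟩ := h
  · have h' : u = c ∧ aS w := h
    left
    rw [← h'.1]
    exact ⟨Finset.mem_toLeft.2 hu, h'.2⟩
  · exact Or.inr ⟨u, Finset.mem_toRight.2 hu, h⟩

variable {S : Finset V} {T : Finset W}

lemma dm_left {v : V} (h : Dm G S v) : Dm (glue G c H aS) (S.disjSum T) (Sum.inl v) := by
  obtain ⟨u, hu, h⟩ := h
  exact ⟨Sum.inl u, Finset.inl_mem_disjSum.2 hu, h⟩

lemma dm_c (h : ∃ u ∈ T, aS u) : Dm (glue G c H aS) (S.disjSum T) (Sum.inl c) := by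
  obtain ⟨u, hu, h⟩ := h
  exact ⟨Sum.inr u, Finset.inr_mem_disjSum.2 hu, rfl, h⟩

lemma dm_aS {w : W} (hc : c ∈ S) (hw : aS w) :
    Dm (glue G c H aS) (S.disjSum T) (Sum.inr w) :=
  ⟨Sum.inl c, Finset.inl_mem_disjSum.2 hc, rfl, hw⟩

lemma dm_right {w : W} (h : Dm H T w) : Dm (glue G c H aS) (S.disjSum T) (Sum.inr w) := by
  obtain ⟨u, hu, h⟩ := h
  exact ⟨Sum.inr u, Finset.inr_mem_disjSum.2 hu, h⟩

lemma dm_right' {w : W} (hc : c ∈ S) (h : aS w ∨ Dm H T w) :
    Dm (glue G c H aS) (S.disjSum T) (Sum.inr w) := by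
  rcases h with h | h
  · exact dm_aS hc h
  · exact dm_right h

end

/-- The inductive invariant for pointed graphs. -/
structure Good {V : Type} (G : SimpleGraph V) (c : V) (n D : ℕ) : Prop where
  A0 : ∀ S : Finset V, c ∉ S → (∀ v, v ≠ c → Dm G S v) → n ≤ S.card
  A1 : ∀ S : Finset V, c ∉ S → (∀ v, Dm G S v) → n + 1 ≤ S.card
  B0 : ∀ S : Finset V, c ∈ S → (∀ v, v ≠ c → Dm G S v) → n + 1 ≤ S.card
  a0 : ∃ S : Finset V, c ∉ S ∧ S.card ≤ n ∧ ∀ v, v ≠ c → Dm G S v
  b1 : ∃ S : Finset V, c ∈ S ∧ S.card ≤ n + 1 ∧ ∀ v, Dm G S v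
  crit : ∀ v, v ≠ c → ∃ S : Finset V, v ∉ S ∧
    ((c ∉ S ∧ S.card ≤ n ∧ ∀ w, w ≠ v → Dm G S w) ∨
     (c ∈ S ∧ S.card ≤ n ∧ ∀ w, w ≠ v → w ≠ c → Dm G S w) ∨
     (c ∉ S ∧ S.card + 1 ≤ n ∧ ∀ w, w ≠ v → w ≠ c → Dm G S w))
  dep : ∃ f : V → ℕ, (∀ u v, G.Adj u v → f u ≤ f v + 1) ∧ f c = D ∧ ∃ x, f x = 0
  con : ∀ v, G.Reachable v c

/-- The facts about a block. -/
structure Block {W : Type} (H : SimpleGraph W) (aS : W → Prop) (t : W) (τ δ : ℕ) : Prop where
  L1a : ∀ T : Finset W, t ∉ T → (∀ w, w ≠ t → aS w ∨ Dm H T w) → τ ≤ T.card + 1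
  L1b : ∀ T : Finset W, t ∈ T → (∀ w, w ≠ t → aS w ∨ Dm H T w) → τ ≤ T.card
  L2 : ∀ T : Finset W, t ∉ T → (∀ w, aS w ∨ Dm H T w) → τ ≤ T.card
  L3a : ∀ T : Finset W, t ∉ T → (∃ u ∈ T, aS u) → (∀ w, w ≠ t → Dm H T w) → τ ≤ T.card
  L3b : ∀ T : Finset W, t ∈ T → (∃ u ∈ T, aS u) → (∀ w, w ≠ t → Dm H T w) → τ + 1 ≤ T.card
  L4 : ∀ T : Finset W, t ∉ T → (∃ u ∈ T, aS u) → (∀ w, Dm H T w) → τ + 1 ≤ T.card
  e0 : ∃ T : Finset W, t ∉ T ∧ T.card ≤ τ ∧ (∃ u ∈ T, aS u) ∧ ∀ w, w ≠ t → Dm H T w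
  e1 : ∃ T : Finset W, t ∈ T ∧ T.card ≤ τ ∧ ∀ w, aS w ∨ Dm H T w
  cI : ∀ w, w ≠ t → ∃ T : Finset W, w ∉ T ∧
    ((t ∉ T ∧ T.card + 1 ≤ τ ∧ ∀ x, x ≠ w → aS x ∨ Dm H T x) ∨
     (t ∈ T ∧ T.card ≤ τ ∧ (∃ u ∈ T, aS u) ∧ ∀ x, x ≠ w → x ≠ t → Dm H T x) ∨
     (t ∉ T ∧ T.card ≤ τ ∧ (∃ u ∈ T, aS u) ∧ ∀ x, x ≠ w → Dm H T x) ∨
     (t ∈ T ∧ T.card + 1 ≤ τ ∧ ∀ x, x ≠ w → x ≠ t → aS x ∨ Dm H T x))
  cA : ∃ T : Finset W, t ∉ T ∧
    ((T.card + 1 ≤ τ ∧ ∀ x, x ≠ t → Dm H T x) ∨ (T.card ≤ τ ∧ ∀ x, Dm H T x))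
  cB : ∃ T : Finset W, t ∉ T ∧ T.card ≤ τ ∧ (∃ u ∈ T, aS u) ∧ ∀ x, aS x ∨ Dm H T x
  cC : ∃ T : Finset W, t ∉ T ∧ T.card ≤ τ + 1 ∧ (∃ u ∈ T, aS u) ∧ ∀ x, Dm H T x
  dep : ∃ f : W → ℕ, (∀ u v, H.Adj u v → f u ≤ f v + 1) ∧ (∀ u, aS u → f u = 1) ∧ f t = δ
  con : ∀ w, ∃ u, aS u ∧ H.Reachable w u

/-- The facts about the last block. -/
structure EndBlock {W : Type} (H : SimpleGraph W) (aS : W → Prop) (δ : ℕ) : Prop where
  F1 : ∀ T : Finset W, (∀ w, aS w ∨ Dm H T w) → 2 ≤ T.card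
  F2 : ∀ T : Finset W, (∃ u ∈ T, aS u) → (∀ w, Dm H T w) → 3 ≤ T.card
  Fw : ∀ w, ∃ T : Finset W, w ∉ T ∧ T.card ≤ 2 ∧ (∃ u ∈ T, aS u) ∧ ∀ x, x ≠ w → Dm H T x
  Fc : ∃ T : Finset W, T.card ≤ 2 ∧ ∀ x, Dm H T x
  Fb : ∃ T : Finset W, T.card ≤ 2 ∧ (∃ u ∈ T, aS u) ∧ ∀ x, aS x ∨ Dm H T x
  Fcc : ∃ T : Finset W, T.card ≤ 3 ∧ (∃ u ∈ T, aS u) ∧ ∀ x, Dm H T x
  dep : ∃ f : W → ℕ, (∀ u v, H.Adj u v → f u ≤ f v + 1) ∧ (∀ u, aS u → f u = 1) ∧ ∃ y, f y = δ
  con : ∀ w, ∃ u, aS u ∧ H.Reachable w u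

section

variable {V W : Type} {G : SimpleGraph V} {c : V} {H : SimpleGraph W} {aS : W → Prop} {t : W}
  {n D τ δ : ℕ}

lemma reach_left (hG : ∀ v, G.Reachable v c) (v : V) :
    (glue G c H aS).Reachable (Sum.inl v) (Sum.inl c) := by
  let φ : G →g glue G c H aS := ⟨Sum.inl, fun h => h⟩
  exact (hG v).map φ

lemma reach_right (hH : ∀ w, ∃ u, aS u ∧ H.Reachable w u) (w : W) :
    (glue G c H aS).Reachable (Sum.inr w) (Sum.inl c) := by
  let φ : H →g glue G c H aS := ⟨Sum.inr, fun h => h⟩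
  obtain ⟨u, hu, hw⟩ := hH w
  have h1 : (glue G c H aS).Reachable (Sum.inr w) (Sum.inr u) := hw.map φ
  have h2 : (glue G c H aS).Adj (Sum.inr u) (Sum.inl c) := ⟨rfl, hu⟩
  exact h1.trans h2.reachable

lemma glue_dep {f : V → ℕ} {g : W → ℕ} (hf : ∀ u v, G.Adj u v → f u ≤ f v + 1) (hfc : f c = D)
    (hg : ∀ u v, H.Adj u v → g u ≤ g v + 1) (hga : ∀ u, aS u → g u = 1) :
    ∀ u v, (glue G c H aS).Adj u v →
      (Sum.elim f (fun w => D + g w) u : ℕ) ≤ Sum.elim f (fun w => D + g w) v + 1 := by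
  rintro (u | u) (v | v) h
  · exact hf u v h
  · have h' : u = c ∧ aS v := h
    simp only [Sum.elim_inl, Sum.elim_inr]
    have := hga v h'.2
    rw [h'.1, hfc]
    omega
  · have h' : v = c ∧ aS u := h
    simp only [Sum.elim_inl, Sum.elim_inr]
    have := hga u h'.2
    rw [h'.1, hfc]
    omega
  · have := hg u v h
    simp only [Sum.elim_inr]
    omega

theorem glue_good (P : Good G c n D) (B : Block H aS t τ δ) :
    Good (glue G c H aS) (Sum.inr t) (n + τ) (D + δ) where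
  A0 := by
    intro U hU hd
    rw [← Finset.card_toLeft_add_card_toRight (u := U)]
    have ht : t ∉ U.toRight := fun h => hU (Finset.mem_toRight.1 h)
    have hl : ∀ v, v ≠ c → Dm G U.toLeft v := fun v hv => left_dm hv (hd _ Sum.inl_ne_inr)
    have hr : ∀ w, w ≠ t → (c ∈ U.toLeft ∧ aS w) ∨ Dm H U.toRight w :=
      fun w hw => right_dm (hd _ (fun h => hw (Sum.inr_injective h)))
    by_cases hc : c ∈ U.toLeft
    · have h1 := P.B0 _ hc hl
      have h2 := B.L1a _ ht (fun w hw => (hr w hw).imp_left And.right)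
      omega
    · have hr' : ∀ w, w ≠ t → Dm H U.toRight w :=
        fun w hw => (hr w hw).resolve_left (fun h => hc h.1)
      rcases left_dm_c (hd (Sum.inl c) Sum.inl_ne_inr) with h | h
      · have h1 := P.A1 _ hc (fun v => by
          by_cases hv : v = c
          · rw [hv]; exact h
          · exact hl v hv)
        have h2 := B.L1a _ ht (fun w hw => Or.inr (hr' w hw))
        omega
      · have h1 := P.A0 _ hc hl
        have h2 := B.L3a _ ht h hr'
        omega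
  A1 := by
    intro U hU hd
    rw [← Finset.card_toLeft_add_card_toRight (u := U)]
    have ht : t ∉ U.toRight := fun h => hU (Finset.mem_toRight.1 h)
    have hl : ∀ v, v ≠ c → Dm G U.toLeft v := fun v hv => left_dm hv (hd _)
    have hr : ∀ w, (c ∈ U.toLeft ∧ aS w) ∨ Dm H U.toRight w := fun w => right_dm (hd _)
    by_cases hc : c ∈ U.toLeft
    · have h1 := P.B0 _ hc hl
      have h2 := B.L2 _ ht (fun w => (hr w).imp_left And.right)
      omega
    · have hr' : ∀ w, Dm H U.toRight w := fun w => (hr w).resolve_left (fun h => hc h.1)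
      rcases left_dm_c (hd (Sum.inl c)) with h | h
      · have h1 := P.A1 _ hc (fun v => by
          by_cases hv : v = c
          · rw [hv]; exact h
          · exact hl v hv)
        have h2 := B.L2 _ ht (fun w => Or.inr (hr' w))
        omega
      · have h1 := P.A0 _ hc hl
        have h2 := B.L4 _ ht h hr'
        omega
  B0 := by
    intro U hU hd
    rw [← Finset.card_toLeft_add_card_toRight (u := U)]
    have ht : t ∈ U.toRight := Finset.mem_toRight.2 hU
    have hl : ∀ v, v ≠ c → Dm G U.toLeft v := fun v hv => left_dm hv (hd _ Sum.inl_ne_inr)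
    have hr : ∀ w, w ≠ t → (c ∈ U.toLeft ∧ aS w) ∨ Dm H U.toRight w :=
      fun w hw => right_dm (hd _ (fun h => hw (Sum.inr_injective h)))
    by_cases hc : c ∈ U.toLeft
    · have h1 := P.B0 _ hc hl
      have h2 := B.L1b _ ht (fun w hw => (hr w hw).imp_left And.right)
      omega
    · have hr' : ∀ w, w ≠ t → Dm H U.toRight w :=
        fun w hw => (hr w hw).resolve_left (fun h => hc h.1)
      rcases left_dm_c (hd (Sum.inl c) Sum.inl_ne_inr) with h | h
      · have h1 := P.A1 _ hc (fun v => by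
          by_cases hv : v = c
          · rw [hv]; exact h
          · exact hl v hv)
        have h2 := B.L1b _ ht (fun w hw => Or.inr (hr' w hw))
        omega
      · have h1 := P.A0 _ hc hl
        have h2 := B.L3b _ ht h hr'
        omega
  a0 := by
    obtain ⟨S, hS1, hS2, hS3⟩ := P.a0
    obtain ⟨T, hT1, hT2, hT3, hT4⟩ := B.e0
    refine ⟨S.disjSum T, fun h => hT1 (Finset.inr_mem_disjSum.1 h), ?_, ?_⟩
    · rw [Finset.card_disjSum]; omega
    · rintro (v | w) h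
      · by_cases hv : v = c
        · rw [hv]; exact dm_c hT3
        · exact dm_left (hS3 v hv)
      · exact dm_right (hT4 w (fun hw => h (congrArg Sum.inr hw)))
  b1 := by
    obtain ⟨S, hS1, hS2, hS3⟩ := P.b1
    obtain ⟨T, hT1, hT2, hT3⟩ := B.e1
    refine ⟨S.disjSum T, Finset.inr_mem_disjSum.2 hT1, ?_, ?_⟩
    · rw [Finset.card_disjSum]; omega
    · rintro (v | w)
      · exact dm_left (hS3 v)
      · exact dm_right' hS1 (hT3 w)
  crit := by
    have key : ∀ (v : V) (S : Finset V), v ∉ S → c ∉ S → S.card ≤ n →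
        (∀ w, w ≠ v → Dm G S w) → ∃ U : Finset (V ⊕ W), Sum.inl v ∉ U ∧
        ((Sum.inr t ∉ U ∧ U.card ≤ n + τ ∧ ∀ w, w ≠ Sum.inl v → Dm (glue G c H aS) U w) ∨
         (Sum.inr t ∈ U ∧ U.card ≤ n + τ ∧
            ∀ w, w ≠ Sum.inl v → w ≠ Sum.inr t → Dm (glue G c H aS) U w) ∨
         (Sum.inr t ∉ U ∧ U.card + 1 ≤ n + τ ∧
            ∀ w, w ≠ Sum.inl v → w ≠ Sum.inr t → Dm (glue G c H aS) U w)) := by
      intro v S h1 h2 h3 h4
      obtain ⟨T, hT1, hT2⟩ := B.cA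
      refine ⟨S.disjSum T, fun h => h1 (Finset.inl_mem_disjSum.1 h), ?_⟩
      rw [Finset.card_disjSum]
      rcases hT2 with ⟨hT3, hT4⟩ | ⟨hT3, hT4⟩
      · right; right
        refine ⟨fun h => hT1 (Finset.inr_mem_disjSum.1 h), by omega, ?_⟩
        rintro (x | x) hx hx'
        · exact dm_left (h4 x (fun h => hx (congrArg Sum.inl h)))
        · exact dm_right (hT4 x (fun h => hx' (congrArg Sum.inr h)))
      · left
        refine ⟨fun h => hT1 (Finset.inr_mem_disjSum.1 h), by omega, ?_⟩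
        rintro (x | x) hx
        · exact dm_left (h4 x (fun h => hx (congrArg Sum.inl h)))
        · exact dm_right (hT4 x)
    rintro (v | w) hvt
    · by_cases hv : v = c
      · obtain ⟨S, hS1, hS2, hS3⟩ := P.a0
        exact key v S (by rw [hv]; exact hS1) hS1 hS2 (fun w hw => hS3 w (by rwa [← hv]))
      · obtain ⟨S, hS1, h | ⟨h1, h2, h3⟩ | ⟨h1, h2, h3⟩⟩ := P.crit v hv
        · exact key v S hS1 h.1 h.2.1 h.2.2
        · obtain ⟨T, hT1, hT2, hT3, hT4⟩ := B.cB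
          refine ⟨S.disjSum T, fun h => hS1 (Finset.inl_mem_disjSum.1 h), Or.inl ⟨fun h =>
            hT1 (Finset.inr_mem_disjSum.1 h), ?_, ?_⟩⟩
          · rw [Finset.card_disjSum]; omega
          · rintro (x | x) hx
            · by_cases hxc : x = c
              · rw [hxc]; exact dm_c hT3
              · exact dm_left (h3 x (fun h => hx (congrArg Sum.inl h)) hxc)
            · exact dm_right' h1 (hT4 x)
        · obtain ⟨T, hT1, hT2, hT3, hT4⟩ := B.cC
          refine ⟨S.disjSum T, fun h => hS1 (Finset.inl_mem_disjSum.1 h), Or.inl ⟨fun h =>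
            hT1 (Finset.inr_mem_disjSum.1 h), ?_, ?_⟩⟩
          · rw [Finset.card_disjSum]; omega
          · rintro (x | x) hx
            · by_cases hxc : x = c
              · rw [hxc]; exact dm_c hT3
              · exact dm_left (h3 x (fun h => hx (congrArg Sum.inl h)) hxc)
            · exact dm_right (hT4 x)
    · have hwt : w ≠ t := fun h => hvt (congrArg Sum.inr h)
      obtain ⟨T, hT1, ⟨h1, h2, h3⟩ | ⟨h1, h2, h3, h4⟩ | ⟨h1, h2, h3, h4⟩ | ⟨h1, h2, h3⟩⟩ :=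
        B.cI w hwt
      · obtain ⟨S, hS1, hS2, hS3⟩ := P.b1
        refine ⟨S.disjSum T, fun h => hT1 (Finset.inr_mem_disjSum.1 h), Or.inl ⟨fun h =>
          h1 (Finset.inr_mem_disjSum.1 h), ?_, ?_⟩⟩
        · rw [Finset.card_disjSum]; omega
        · rintro (x | x) hx
          · exact dm_left (hS3 x)
          · exact dm_right' hS1 (h3 x (fun h => hx (congrArg Sum.inr h)))
      · obtain ⟨S, hS1, hS2, hS3⟩ := P.a0
        refine ⟨S.disjSum T, fun h => hT1 (Finset.inr_mem_disjSum.1 h), Or.inr (Or.inl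
          ⟨Finset.inr_mem_disjSum.2 h1, ?_, ?_⟩)⟩
        · rw [Finset.card_disjSum]; omega
        · rintro (x | x) hx hx'
          · by_cases hxc : x = c
            · rw [hxc]; exact dm_c h3
            · exact dm_left (hS3 x hxc)
          · exact dm_right (h4 x (fun h => hx (congrArg Sum.inr h))
              (fun h => hx' (congrArg Sum.inr h)))
      · obtain ⟨S, hS1, hS2, hS3⟩ := P.a0
        refine ⟨S.disjSum T, fun h => hT1 (Finset.inr_mem_disjSum.1 h), Or.inl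
          ⟨fun h => h1 (Finset.inr_mem_disjSum.1 h), ?_, ?_⟩⟩
        · rw [Finset.card_disjSum]; omega
        · rintro (x | x) hx
          · by_cases hxc : x = c
            · rw [hxc]; exact dm_c h3
            · exact dm_left (hS3 x hxc)
          · exact dm_right (h4 x (fun h => hx (congrArg Sum.inr h)))
      · obtain ⟨S, hS1, hS2, hS3⟩ := P.b1
        refine ⟨S.disjSum T, fun h => hT1 (Finset.inr_mem_disjSum.1 h), Or.inr (Or.inl
          ⟨Finset.inr_mem_disjSum.2 h1, ?_, ?_⟩)⟩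
        · rw [Finset.card_disjSum]; omega
        · rintro (x | x) hx hx'
          · exact dm_left (hS3 x)
          · exact dm_right' hS1 (h3 x (fun h => hx (congrArg Sum.inr h))
              (fun h => hx' (congrArg Sum.inr h)))
  dep := by
    obtain ⟨f, hf1, hf2, x, hx⟩ := P.dep
    obtain ⟨g, hg1, hg2, hg3⟩ := B.dep
    exact ⟨_, glue_dep hf1 hf2 hg1 hg2, by simp only [Sum.elim_inr]; omega, Sum.inl x, hx⟩
  con := by
    have ht := reach_right (G := G) (c := c) B.con t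
    rintro (v | w)
    · exact (reach_left P.con v).trans ht.symm
    · exact (reach_right B.con w).trans ht.symm

/-- The set witnessing that deleting `v` lowers the total domination number. -/
lemma crit_lt {X : Type} {K : SimpleGraph X} {v : X} {S : Finset X} {k : ℕ} (hk : S.card < k)
    (hv : v ∉ S) (hS : ∀ w, w ≠ v → Dm K S w) :
    totalDomNumber (K.induce {v}ᶜ) < k := by
  classical
  refine lt_of_le_of_lt ?_ hk
  refine le_trans (Nat.sInf_le ⟨S.subtype (· ∈ ({v}ᶜ : Set X)), rfl, ?_⟩) ?_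
  · rintro ⟨w, hw⟩
    obtain ⟨u, hu, hwu⟩ := hS w hw
    refine ⟨⟨u, ?_⟩, Finset.mem_subtype.2 hu, hwu⟩
    rintro rfl
    exact hv hu
  · rw [Finset.card_subtype]
    exact Finset.card_filter_le _ _

theorem glue_end (P : Good G c n D) (B : EndBlock H aS δ) :
    IsTVC (glue G c H aS) (n + 3) ∧ (glue G c H aS).Connected ∧
      ∃ x y, ∃ f : V ⊕ W → ℕ, (∀ u v, (glue G c H aS).Adj u v → f u ≤ f v + 1) ∧ f x = 0 ∧
        f y = D + δ := by
  classical
  have hcon : (glue G c H aS).Connected := by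
    have : Nonempty (V ⊕ W) := ⟨Sum.inl c⟩
    refine ⟨fun x y => ?_⟩
    have key : ∀ z, (glue G c H aS).Reachable z (Sum.inl c) := by
      rintro (v | w)
      · exact reach_left P.con v
      · exact reach_right B.con w
    exact (key x).trans (key y).symm
  have hlow : ∀ U : Finset (V ⊕ W), (∀ v, Dm (glue G c H aS) U v) → n + 3 ≤ U.card := by
    intro U hd
    rw [← Finset.card_toLeft_add_card_toRight (u := U)]
    have hl : ∀ v, v ≠ c → Dm G U.toLeft v := fun v hv => left_dm hv (hd _)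
    have hr : ∀ w, (c ∈ U.toLeft ∧ aS w) ∨ Dm H U.toRight w := fun w => right_dm (hd _)
    by_cases hc : c ∈ U.toLeft
    · have h1 := P.B0 _ hc hl
      have h2 := B.F1 _ (fun w => (hr w).imp_left And.right)
      omega
    · have hr' : ∀ w, Dm H U.toRight w := fun w => (hr w).resolve_left (fun h => hc h.1)
      rcases left_dm_c (hd (Sum.inl c)) with h | h
      · have h1 := P.A1 _ hc (fun v => by
          by_cases hv : v = c
          · rw [hv]; exact h
          · exact hl v hv)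
        have h2 := B.F1 _ (fun w => Or.inr (hr' w))
        omega
      · have h1 := P.A0 _ hc hl
        have h2 := B.F2 _ h hr'
        omega
  obtain ⟨U, hU1, hU2⟩ : ∃ U : Finset (V ⊕ W), U.card ≤ n + 3 ∧
      ∀ v, Dm (glue G c H aS) U v := by
    obtain ⟨S, hS1, hS2, hS3⟩ := P.b1
    obtain ⟨T, hT1, hT2, hT3⟩ := B.Fb
    refine ⟨S.disjSum T, ?_, ?_⟩
    · rw [Finset.card_disjSum]; omega
    · rintro (v | w)
      · exact dm_left (hS3 v)
      · exact dm_right' hS1 (hT3 w)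
  have htd : totalDomNumber (glue G c H aS) = n + 3 := by
    apply le_antisymm
    · exact le_trans (Nat.sInf_le ⟨U, rfl, hU2⟩) hU1
    · obtain ⟨X, hX, hX2⟩ := Nat.sInf_mem (s := {m | ∃ S : Finset (V ⊕ W), S.card = m ∧
        IsTotalDominating (glue G c H aS) S}) ⟨_, U, rfl, hU2⟩
      have := hlow X hX2
      rw [hX] at this
      exact this
  refine ⟨⟨fun v => ?_, htd, fun v _ => ?_⟩, hcon, ?_⟩
  · obtain ⟨u, -, hu⟩ := hU2 v
    exact ⟨u, hu⟩
  · rw [htd]
    rcases v with v | w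
    · have key : ∀ (v : V) (S : Finset V), v ∉ S → c ∉ S → S.card ≤ n →
          (∀ w, w ≠ v → Dm G S w) →
          totalDomNumber ((glue G c H aS).induce {Sum.inl v}ᶜ) < n + 3 := by
        intro v S h1 h2 h3 h4
        obtain ⟨T, hT1, hT2⟩ := B.Fc
        refine crit_lt (S := S.disjSum T) (by rw [Finset.card_disjSum]; omega)
          (fun h => h1 (Finset.inl_mem_disjSum.1 h)) ?_
        rintro (x | x) hx
        · exact dm_left (h4 x (fun h => hx (congrArg Sum.inl h)))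
        · exact dm_right (hT2 x)
      by_cases hv : v = c
      · obtain ⟨S, hS1, hS2, hS3⟩ := P.a0
        exact key v S (by rw [hv]; exact hS1) hS1 hS2 (fun w hw => hS3 w (by rwa [← hv]))
      · obtain ⟨S, hS1, h | ⟨h1, h2, h3⟩ | ⟨h1, h2, h3⟩⟩ := P.crit v hv
        · exact key v S hS1 h.1 h.2.1 h.2.2
        · obtain ⟨T, hT2, hT3, hT4⟩ := B.Fb
          refine crit_lt (S := S.disjSum T) (by rw [Finset.card_disjSum]; omega)
            (fun h => hS1 (Finset.inl_mem_disjSum.1 h)) ?_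
          rintro (x | x) hx
          · by_cases hxc : x = c
            · rw [hxc]; exact dm_c hT3
            · exact dm_left (h3 x (fun h => hx (congrArg Sum.inl h)) hxc)
          · exact dm_right' h1 (hT4 x)
        · obtain ⟨T, hT2, hT3, hT4⟩ := B.Fcc
          refine crit_lt (S := S.disjSum T) (by rw [Finset.card_disjSum]; omega)
            (fun h => hS1 (Finset.inl_mem_disjSum.1 h)) ?_
          rintro (x | x) hx
          · by_cases hxc : x = c
            · rw [hxc]; exact dm_c hT3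
            · exact dm_left (h3 x (fun h => hx (congrArg Sum.inl h)) hxc)
          · exact dm_right (hT4 x)
    · obtain ⟨S, hS1, hS2, hS3⟩ := P.a0
      obtain ⟨T, hT1, hT2, hT3, hT4⟩ := B.Fw w
      refine crit_lt (S := S.disjSum T) (by rw [Finset.card_disjSum]; omega)
        (fun h => hT1 (Finset.inr_mem_disjSum.1 h)) ?_
      rintro (x | x) hx
      · by_cases hxc : x = c
        · rw [hxc]; exact dm_c hT3
        · exact dm_left (hS3 x hxc)
      · exact dm_right (hT4 x (fun h => hx (congrArg Sum.inr h)))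
  · obtain ⟨f, hf1, hf2, x, hx⟩ := P.dep
    obtain ⟨g, hg1, hg2, y, hy⟩ := B.dep
    exact ⟨Sum.inl x, Sum.inr y, _, glue_dep hf1 hf2 hg1 hg2, hx,
      by simp only [Sum.elim_inr]; omega⟩

end

end Pool.Agent.MP_64f7e5_co
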