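import Pool.Agent.MP_64f7e5_co.Upper

namespace Pool.Agent.MP_64f7e5_co

open Finset

variable {V : Type*} {G : SimpleGraph V} {k : ℕ}

/-- A total dominating set bounds the total domination number. -/
lemma totalDomNumber_le {X : Finset V} (hX : IsTotalDominating G X) :
    totalDomNumber G ≤ X.card :=
  Nat.sInf_le ⟨X, rfl, hX⟩

/-- A non leaf `w` adjacent to `v` has another neighbour. -/
lemma exists_other {v w : V} (hw : ¬ IsLeaf G w) (hwv : G.Adj w v) : ∃ u, u ≠ v ∧ G.Adj w u := by
  by_contra h
  push Not at h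
  exact hw ⟨v, hwv, fun u hu => by
    by_contra hne
    exact h u hne hu⟩

/-- The set attached to a critical vertex. -/
lemma crit_set [Finite V] (hG : IsTVC G k) {v : V} (hv : ∀ u, G.Adj v u → ¬ IsLeaf G u) :
    ∃ S : Finset V, S.card + 1 = k ∧ v ∉ S ∧ ∀ w, w ≠ v → ∃ u ∈ S, G.Adj w u := by
  classical
  have := Fintype.ofFinite V
  obtain ⟨h0, hk, hc⟩ := hG
  have h1 := hc v hv
  have hne : {n | ∃ S : Finset (({v}ᶜ : Set V)), S.card = n ∧
      IsTotalDominating (G.induce ({v}ᶜ : Set V)) S}.Nonempty := by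
    refine ⟨_, Finset.univ, rfl, ?_⟩
    rintro ⟨w, hw⟩
    have hw' : w ≠ v := hw
    by_cases hwv : G.Adj w v
    · obtain ⟨u, hu, hwu⟩ := exists_other (hv w hwv.symm) hwv
      exact ⟨⟨u, hu⟩, Finset.mem_univ _, hwu⟩
    · obtain ⟨u, hu⟩ := h0 w
      exact ⟨⟨u, by rintro rfl; exact hwv hu⟩, Finset.mem_univ _, hu⟩
  obtain ⟨S, hS, hS2⟩ := Nat.sInf_mem hne
  have hlt : S.card < k := by
    rw [← hk, hS]
    exact h1
  have hcard : (S.map (Function.Embedding.subtype _)).card = S.card := Finset.card_map _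
  have hnot : v ∉ S.map (Function.Embedding.subtype _) := by
    intro h
    rw [Finset.mem_map] at h
    obtain ⟨⟨w, hw⟩, -, h2⟩ := h
    exact hw h2
  have hdom : ∀ w, w ≠ v → ∃ u ∈ S.map (Function.Embedding.subtype _), G.Adj w u := by
    intro w hw
    obtain ⟨⟨u, hu⟩, huS, hwu⟩ := hS2 ⟨w, hw⟩
    exact ⟨u, Finset.mem_map.2 ⟨⟨u, hu⟩, huS, rfl⟩, hwu⟩
  refine ⟨S.map (Function.Embedding.subtype _), ?_, hnot, hdom⟩
  obtain ⟨u, hu⟩ := h0 v
  have hT : IsTotalDominating G (insert u (S.map (Function.Embedding.subtype _))) := by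
    intro w
    by_cases hw : w = v
    · subst hw
      exact ⟨u, Finset.mem_insert_self _ _, hu⟩
    · obtain ⟨y, hy, hwy⟩ := hdom w hw
      exact ⟨y, Finset.mem_insert_of_mem hy, hwy⟩
  have h2 := totalDomNumber_le hT
  have h3 := Finset.card_insert_le u (S.map (Function.Embedding.subtype _))
  rw [hk] at h2
  omega

/-- propagation along walks -/
lemma closed_walk {P : V → Prop} (hP : ∀ a b, G.Adj a b → P a → P b) {a b : V}
    (p : G.Walk a b) (ha : P a) : P b := by
  induction p with
  | nil => exact ha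
  | cons h p ih => exact ih (hP _ _ h ha)

lemma dist_adj_le (hc : G.Connected) (x : V) {u v : V} (h : G.Adj u v) :
    G.dist x u ≤ G.dist x v + 1 := by
  have h1 := hc.dist_triangle (u := x) (v := v) (w := u)
  have h2 : G.dist v u = 1 := SimpleGraph.dist_eq_one_iff_adj.2 h.symm
  omega

lemma layers (hc : G.Connected) (x y : V) (i : ℕ) (hi : i ≤ G.dist x y) :
    ∃ v, G.dist x v = i := by
  by_contra hcon
  push Not at hcon
  obtain ⟨p⟩ := hc.preconnected x y
  have h0 : G.dist x x < i := by
    have := hcon x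
    rw [SimpleGraph.dist_self] at this ⊢
    omega
  have := closed_walk (P := fun v => G.dist x v < i) (fun a b hab ha => by
    have h1 := dist_adj_le hc x hab.symm
    have h2 := hcon b
    omega) p h0
  omega

lemma diam_attained [Finite V] (hc : G.Connected) :
    ∃ x y, G.dist x y = G.diam ∧ ∀ v, G.dist x v ≤ G.diam := by
  have := hc.nonempty
  obtain ⟨x, y, hxy⟩ := G.exists_dist_eq_diam
  exact ⟨x, y, hxy, fun v =>
    SimpleGraph.dist_le_diam (SimpleGraph.connected_iff_ediam_ne_top.1 hc)⟩

/-- The upper bound when there is no leaf. -/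
theorem upper_noleaf [Finite V] (hk : 4 ≤ k) (hc : G.Connected) (hG : IsTVC G k)
    (hl : ∀ v, ¬ IsLeaf G v) : 3 * G.diam + 7 ≤ 5 * k := by
  classical
  have := Fintype.ofFinite V
  obtain ⟨x, y, hxy, hmax⟩ := diam_attained hc
  choose S hS1 hS2 hS3 using fun v : V => crit_set hG (v := v) (fun u _ => hl u)
  have D : Data G k (fun v => G.dist x v) G.diam S :=
    { iso := hG.1
      low := fun X hX => by
        have := totalDomNumber_le hX
        rw [hG.2.1] at this
        exact this
      card := hS1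
      notMem := hS2
      dom := hS3
      adj := fun u v h => dist_adj_le hc x h
      max := hmax
      lay := fun i hi => layers hc x y i (by omega) }
  exact upper D hk

/-- If there is a leaf, all vertices are leaves or supports. -/
lemma leaf_or_support [Finite V] (hc : G.Connected) (hG : IsTVC G k) {l : V} (hl : IsLeaf G l)
    (v : V) : IsLeaf G v ∨ ∃ u, G.Adj v u ∧ IsLeaf G u := by
  classical
  obtain ⟨p⟩ := hc.preconnected l v
  refine closed_walk (P := fun v => IsLeaf G v ∨ ∃ u, G.Adj v u ∧ IsLeaf G u) ?_ p (Or.inl hl)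
  rintro a b hab (ha | ⟨u, hau, hu⟩)
  · exact Or.inr ⟨a, hab.symm, ha⟩
  · by_cases hbu : b = u
    · subst hbu
      exact Or.inl hu
    · right
      by_contra hcon
      push Not at hcon
      obtain ⟨S, hS1, hS2, hS3⟩ := crit_set hG (v := b) hcon
      have hT : IsTotalDominating G S := by
        intro w
        by_cases hw : w = b
        · subst hw
          obtain ⟨z, hz, huz⟩ := hS3 u (Ne.symm hbu)
          obtain ⟨q, hq, hq2⟩ := hu
          have h1 : z = a := by rw [hq2 z huz, hq2 a hau.symm]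
          subst h1
          exact ⟨z, hz, hab.symm⟩
        · exact hS3 w hw
      have h2 := totalDomNumber_le hT
      rw [hG.2.1] at h2
      omega

/-- The upper bound when there is a leaf. -/
theorem upper_leaf [Finite V] (hc : G.Connected) (hG : IsTVC G k)
    {l : V} (hl : IsLeaf G l) : G.diam ≤ k + 1 := by
  classical
  have := Fintype.ofFinite V
  obtain ⟨x, y, hxy, hmax⟩ := diam_attained hc
  obtain ⟨p, hp, hpl⟩ := hc.exists_path_of_dist x y
  have hsup : ∀ i, i + 2 ≤ p.length → ∃ u, G.Adj (p.getVert (i + 1)) u ∧ IsLeaf G u := by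
    intro i hi
    rcases leaf_or_support hc hG hl (p.getVert (i + 1)) with h | h
    · exfalso
      obtain ⟨q, hq, hq2⟩ := h
      have h1 := p.adj_getVert_succ (i := i) (by omega)
      have h2 := p.adj_getVert_succ (i := i + 1) (by omega)
      have h3 : p.getVert i = p.getVert (i + 2) := by
        rw [hq2 _ h1.symm, hq2 _ h2]
      have := hp.getVert_injOn (by simp only [Set.mem_ofPred_eq]; omega)
        (by simp only [Set.mem_ofPred_eq]; omega) h3
      omega
    · exact h
  -- a minimum total dominating set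
  have hne : {n | ∃ S : Finset V, S.card = n ∧ IsTotalDominating G S}.Nonempty :=
    ⟨_, Finset.univ, rfl, fun v => by
      obtain ⟨u, hu⟩ := hG.1 v
      exact ⟨u, Finset.mem_univ _, hu⟩⟩
  obtain ⟨S, hS, hS2⟩ := Nat.sInf_mem hne
  have hSk : S.card = k := by rw [hS, ← hG.2.1]; rfl
  have hsub : (Finset.range (p.length - 1)).image (fun i => p.getVert (i + 1)) ⊆ S := by
    intro w hw
    rw [Finset.mem_image] at hw
    obtain ⟨i, hi, rfl⟩ := hw
    rw [Finset.mem_range] at hi
    obtain ⟨u, hu, q, hq, hq2⟩ := hsup i (by omega)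
    obtain ⟨z, hz, huz⟩ := hS2 u
    have h1 : z = p.getVert (i + 1) := by rw [hq2 z huz, hq2 _ hu.symm]
    rwa [← h1]
  have hcard : ((Finset.range (p.length - 1)).image (fun i => p.getVert (i + 1))).card =
      p.length - 1 := by
    rw [Finset.card_image_of_injOn, Finset.card_range]
    intro i hi j hj hij
    simp only [Finset.coe_range, Set.mem_Iio] at hi hj
    have := hp.getVert_injOn (by simp only [Set.mem_ofPred_eq]; omega)
      (by simp only [Set.mem_ofPred_eq]; omega) hij
    omega
  have := Finset.card_le_card hsub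
  omega

/-- The upper bound. -/
theorem upper_bound [Finite V] (hk : 5 ≤ k) (hc : G.Connected) (hG : IsTVC G k) :
    3 * G.diam + 7 ≤ 5 * k := by
  by_cases hl : ∃ l, IsLeaf G l
  · obtain ⟨l, hl⟩ := hl
    have := upper_leaf hc hG hl
    omega
  · push Not at hl
    exact upper_noleaf (by omega) hc hG hl

end Pool.Agent.MP_64f7e5_co
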