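import Pool.Agent.MP_64f7e5_co.Blocks
import Pool.Agent.MP_64f7e5_co.UpperReal

namespace Pool.Agent.MP_64f7e5_co

/-- There is a finite pointed graph satisfying the invariant. -/
def GoodEx (n D : ℕ) : Prop :=
  ∃ (V : Type) (_ : Finite V) (G : SimpleGraph V) (c : V), Good G c n D

lemma goodEx_base : GoodEx 2 3 := ⟨Fin 10, inferInstance, PG, 9, P_good⟩

lemma GoodEx.X {n D : ℕ} (h : GoodEx n D) : GoodEx (n + 2) (D + 3) := by
  obtain ⟨V, hV, G, c, hG⟩ := h
  exact ⟨V ⊕ Fin 10, inferInstance, _, _, glue_good hG X_block⟩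

lemma GoodEx.M {n D : ℕ} (h : GoodEx n D) : GoodEx (n + 3) (D + 5) := by
  obtain ⟨V, hV, G, c, hG⟩ := h
  exact ⟨V ⊕ Fin 21, inferInstance, _, _, glue_good hG M_block⟩

lemma GoodEx.Ms {n D : ℕ} (h : GoodEx n D) (j : ℕ) : GoodEx (n + 3 * j) (D + 5 * j) := by
  induction j with
  | zero => exact h
  | succ j ih => exact ih.M

/-- A potential changing by at most one along edges bounds the distance. -/
lemma potential_le {V : Type} {G : SimpleGraph V} {f : V → ℕ}
    (hf : ∀ u v, G.Adj u v → f u ≤ f v + 1) {x y : V} (p : G.Walk x y) :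
    f y ≤ f x + p.length := by
  induction p with
  | nil => simp
  | cons h p ih =>
    have := hf _ _ h.symm
    rw [SimpleGraph.Walk.length_cons]
    omega

lemma GoodEx.end {n D : ℕ} (h : GoodEx n D) :
    ∃ (V : Type) (_ : Finite V) (G : SimpleGraph V), G.Connected ∧ IsTVC G (n + 3) ∧
      D + 3 ≤ G.diam := by
  obtain ⟨V, hV, G, c, hG⟩ := h
  obtain ⟨h1, h2, x, y, f, hf, hx, hy⟩ := glue_end hG F_end
  refine ⟨V ⊕ Fin 9, inferInstance, _, h2, h1, ?_⟩
  obtain ⟨p, hp⟩ := h2.exists_walk_length_eq_dist x y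
  have h3 := potential_le hf p
  have : Nonempty (V ⊕ Fin 9) := ⟨x⟩
  have h4 := SimpleGraph.dist_le_diam (SimpleGraph.connected_iff_ediam_ne_top.1 h2)
    (u := x) (v := y)
  omega

/-- The lower bound. -/
theorem lower_bound (k : ℕ) (hk : 7 ≤ k) :
    ∃ (V : Type) (_ : Finite V) (G : SimpleGraph V), G.Connected ∧ IsTVC G k ∧
      (5 * k - 7) / 3 ≤ G.diam := by
  obtain ⟨j, b, hb, hkj⟩ : ∃ j b, b < 3 ∧ k = 5 + 2 * b + 3 * j := by
    have h3 : k % 3 < 3 := Nat.mod_lt _ (by norm_num)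
    have h4 := Nat.div_add_mod k 3
    interval_cases h : k % 3
    · exact ⟨k / 3 - 3, 2, by norm_num, by omega⟩
    · exact ⟨k / 3 - 2, 1, by norm_num, by omega⟩
    · exact ⟨k / 3 - 1, 0, by norm_num, by omega⟩
  interval_cases b
  · obtain ⟨V, hV, G, h1, h2, h3⟩ := (goodEx_base.Ms j).end
    refine ⟨V, hV, G, h1, ?_, by omega⟩
    rwa [show k = 2 + 3 * j + 3 by omega]
  · obtain ⟨V, hV, G, h1, h2, h3⟩ := (goodEx_base.X.Ms j).end
    refine ⟨V, hV, G, h1, ?_, by omega⟩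
    rwa [show k = 2 + 2 + 3 * j + 3 by omega]
  · obtain ⟨V, hV, G, h1, h2, h3⟩ := (goodEx_base.X.X.Ms j).end
    refine ⟨V, hV, G, h1, ?_, by omega⟩
    rwa [show k = 2 + 2 + 2 + 3 * j + 3 by omega]

/-- The maximum diameter of connected `k_t`VC graphs. -/
theorem main (k : ℕ) (hk : 7 ≤ k) :
    IsGreatest {d | ∃ (V : Type) (_ : Finite V) (G : SimpleGraph V),
      G.Connected ∧ IsTVC G k ∧ G.diam = d} ((5 * k - 7) / 3) := by
  constructor
  · obtain ⟨V, hV, G, h1, h2, h3⟩ := lower_bound k hk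
    have h4 := upper_bound (by omega) h1 h2
    exact ⟨V, hV, G, h1, h2, by omega⟩
  · rintro d ⟨V, hV, G, h1, h2, rfl⟩
    have h4 := upper_bound (by omega) h1 h2
    omega

end Pool.Agent.MP_64f7e5_co
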