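import Pool.Agent.MP_64f7e5_co.Defs

namespace Pool.Agent.MP_64f7e5_co

open Finset

section abstract

variable {V : Type*} [Fintype V] [DecidableEq V] {G : SimpleGraph V} {k : ℕ}

/-- the number of elements of `S` below level `m` -/
def PP (r : V → ℕ) (S : Finset V) (m : ℕ) : ℕ := (S.filter fun u => r u < m).card

/-- `X` lies in the levels `≤ m` and dominates the levels `< m` -/
def Valid (G : SimpleGraph V) (r : V → ℕ) (m : ℕ) (X : Finset V) : Prop :=
  (∀ u ∈ X, r u ≤ m) ∧ ∀ v, r v < m → ∃ u ∈ X, G.Adj v u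

/-- the least size of a valid set -/
noncomputable def QQ (G : SimpleGraph V) (r : V → ℕ) (m : ℕ) : ℕ :=
  sInf {n | ∃ X : Finset V, X.card = n ∧ Valid G r m X}

lemma QQ_le {r : V → ℕ} {m : ℕ} {X : Finset V} (hX : Valid G r m X) : QQ G r m ≤ X.card :=
  Nat.sInf_le ⟨X, rfl, hX⟩

lemma PP_mono {r : V → ℕ} (S : Finset V) {m n : ℕ} (h : m ≤ n) : PP r S m ≤ PP r S n := by
  apply Finset.card_le_card
  intro u hu
  rw [Finset.mem_filter] at hu ⊢
  exact ⟨hu.1, by omega⟩

lemma PP_add {r : V → ℕ} (S : Finset V) (m : ℕ) :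
    PP r S m + (S.filter fun u => m ≤ r u).card = S.card := by
  unfold PP
  rw [← Finset.card_filter_add_card_filter_not (s := S) (fun u => r u < m)]
  congr 2
  ext u
  simp only [Finset.mem_filter, not_lt]

lemma PP_diff {r : V → ℕ} (S : Finset V) {m n : ℕ} (h : m ≤ n) :
    PP r S m + (S.filter fun u => m ≤ r u ∧ r u < n).card = PP r S n := by
  unfold PP
  rw [← Finset.card_union_of_disjoint]
  · congr 1
    ext u
    simp only [Finset.mem_union, Finset.mem_filter]
    constructor
    · rintro (h1 | h1)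
      · exact ⟨h1.1, by omega⟩
      · exact ⟨h1.1, h1.2.2⟩
    · rintro ⟨h1, h2⟩
      by_cases h3 : r u < m
      · exact Or.inl ⟨h1, h3⟩
      · exact Or.inr ⟨h1, by omega, h2⟩
  · rw [Finset.disjoint_left]
    intro u hu hu'
    rw [Finset.mem_filter] at hu hu'
    omega

/-- the data of the proof -/
structure Data (G : SimpleGraph V) (k : ℕ) (r : V → ℕ) (d : ℕ) (S : V → Finset V) : Prop where
  iso : ∀ v, ∃ u, G.Adj v u
  low : ∀ X : Finset V, IsTotalDominating G X → k ≤ X.card
  card : ∀ v, (S v).card + 1 = k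
  notMem : ∀ v, v ∉ S v
  dom : ∀ v w, w ≠ v → ∃ u ∈ S v, G.Adj w u
  adj : ∀ u v, G.Adj u v → r u ≤ r v + 1
  max : ∀ v, r v ≤ d
  lay : ∀ i ≤ d, ∃ v, r v = i

variable {r : V → ℕ} {d : ℕ} {S : V → Finset V} (D : Data G k r d S)

include D

lemma QQ_spec (m : ℕ) : ∃ X : Finset V, X.card = QQ G r m ∧ Valid G r m X := by
  have hne : {n | ∃ X : Finset V, X.card = n ∧ Valid G r m X}.Nonempty := by
    refine ⟨_, Finset.univ.filter (fun u => r u ≤ m), rfl, ?_, ?_⟩
    · intro u hu
      exact (Finset.mem_filter.1 hu).2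
    · intro v hv
      obtain ⟨u, hu⟩ := D.iso v
      have := D.adj u v hu.symm
      exact ⟨u, Finset.mem_filter.2 ⟨Finset.mem_univ _, by omega⟩, hu⟩
  exact Nat.sInf_mem hne

lemma G1 {m : ℕ} {v : V} (hv : r v ≤ m) : PP r (S v) m + 1 ≤ QQ G r (m + 1) := by
  obtain ⟨X, hX, hX1, hX2⟩ := QQ_spec D (m + 1)
  have hT : IsTotalDominating G (X ∪ (S v).filter fun u => m ≤ r u) := by
    intro w
    by_cases hw : r w < m + 1
    · obtain ⟨u, hu, huw⟩ := hX2 w hw
      exact ⟨u, Finset.mem_union_left _ hu, huw⟩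
    · obtain ⟨u, hu, huw⟩ := D.dom v w (by rintro rfl; omega)
      have := D.adj w u huw
      exact ⟨u, Finset.mem_union_right _ (Finset.mem_filter.2 ⟨hu, by omega⟩), huw⟩
  have h1 := D.low _ hT
  have h2 := Finset.card_union_le X ((S v).filter fun u => m ≤ r u)
  have h3 := PP_add (r := r) (S v) m
  have h4 := D.card v
  omega

lemma G2 {m : ℕ} {v : V} (hv : m ≤ r v) : QQ G r m ≤ PP r (S v) (m + 1) := by
  apply QQ_le
  constructor
  · intro u hu
    have := (Finset.mem_filter.1 hu).2
    omega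
  · intro w hw
    obtain ⟨u, hu, huw⟩ := D.dom v w (by rintro rfl; omega)
    have := D.adj u w huw.symm
    exact ⟨u, Finset.mem_filter.2 ⟨hu, by omega⟩, huw⟩

lemma R2 {m : ℕ} (hm : m ≤ d) : QQ G r m + 1 ≤ QQ G r (m + 2) := by
  obtain ⟨v, hv⟩ := D.lay m hm
  have h1 := G2 D (m := m) (v := v) (by omega)
  have h2 := G1 D (m := m + 1) (v := v) (by omega)
  rw [show m + 1 + 1 = m + 2 by ring] at h2
  omega

lemma R5 {m : ℕ} (hm : m + 3 ≤ d) : QQ G r m + 3 ≤ QQ G r (m + 5) := by
  by_contra hcon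
  push Not at hcon
  have hub : ∀ v, r v ≤ m + 4 → PP r (S v) (m + 4) ≤ QQ G r m + 1 := by
    intro v hv
    have := G1 D hv
    rw [show m + 4 + 1 = m + 5 by ring] at this
    omega
  obtain ⟨u, hu⟩ := D.lay (m + 2) (by omega)
  have hu1 := G2 D (m := m) (v := u) (by omega)
  have hu2 := hub u (by omega)
  have hR2 := R2 D (m := m) (by omega)
  -- elements in the middle
  set C := (S u).filter fun w => m + 1 ≤ r w ∧ r w < m + 4 with hC
  have hCc : PP r (S u) (m + 1) + C.card = PP r (S u) (m + 4) := PP_diff (S u) (by omega)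
  -- if no element has level `m + 1` or `m + 2`
  have hZ : (∀ w ∈ S u, r w ≠ m + 1 ∧ r w ≠ m + 2) → QQ G r (m + 2) ≤ PP r (S u) (m + 1) := by
    intro h
    apply QQ_le
    constructor
    · intro w hw
      have := (Finset.mem_filter.1 hw).2
      omega
    · intro w hw
      obtain ⟨y, hy, hwy⟩ := D.dom u w (by rintro rfl; omega)
      have h1 := D.adj y w hwy.symm
      have h2 := h y hy
      exact ⟨y, Finset.mem_filter.2 ⟨hy, by omega⟩, hwy⟩
  have hW : (∀ w ∈ S u, r w ≠ m + 2 ∧ r w ≠ m + 3) ∧ QQ G r m + 1 ≤ PP r (S u) (m + 4) := by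
    rcases Nat.eq_zero_or_pos C.card with h0 | h0
    · have hne : ∀ w ∈ S u, ¬ (m + 1 ≤ r w ∧ r w < m + 4) := by
        intro w hw h
        have : w ∈ C := Finset.mem_filter.2 ⟨hw, h⟩
        rw [Finset.card_eq_zero.1 h0] at this
        simp at this
      have h1 := hZ (fun w hw => by
        have := hne w hw
        omega)
      refine ⟨fun w hw => ?_, by omega⟩
      have := hne w hw
      omega
    · have hc1 : C.card = 1 := by omega
      obtain ⟨y, hy⟩ := Finset.card_eq_one.1 hc1
      have hyC : y ∈ C := by rw [hy]; exact Finset.mem_singleton_self y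
      have hyS := (Finset.mem_filter.1 hyC).1
      have hyr := (Finset.mem_filter.1 hyC).2
      have huniq : ∀ w ∈ S u, m + 1 ≤ r w → r w < m + 4 → w = y := by
        intro w hw h1 h2
        have : w ∈ C := Finset.mem_filter.2 ⟨hw, h1, h2⟩
        rwa [hy, Finset.mem_singleton] at this
      obtain ⟨y', hy', hyy'⟩ := D.dom u y (by rintro rfl; exact D.notMem y hyS)
      have hne : y' ≠ y := by rintro rfl; exact G.loopless.irrefl _ hyy'
      have a1 := D.adj y y' hyy'
      have a2 := D.adj y' y hyy'.symm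
      have a3 : ¬ (m + 1 ≤ r y' ∧ r y' < m + 4) := fun h => hne (huniq y' hy' h.1 h.2)
      -- `y` is at level `m + 1`
      have hy1 : r y = m + 1 := by
        by_contra h
        have hy3 : r y = m + 3 := by omega
        have h1 := hZ (fun w hw => by
          constructor
          · intro hw1
            have := huniq w hw (by omega) (by omega)
            rw [this] at hw1; omega
          · intro hw1
            have := huniq w hw (by omega) (by omega)
            rw [this] at hw1; omega)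
        omega
      refine ⟨fun w hw => ?_, by omega⟩
      constructor
      · intro hw1
        have := huniq w hw (by omega) (by omega)
        rw [this] at hw1; omega
      · intro hw1
        have := huniq w hw (by omega) (by omega)
        rw [this] at hw1; omega
  obtain ⟨hW1, hW2⟩ := hW
  obtain ⟨v, hv⟩ := D.lay (m + 3) hm
  have hv2 := hub v (by omega)
  have hT : IsTotalDominating G
      (((S v).filter fun w => r w < m + 4) ∪ ((S u).filter fun w => m + 4 ≤ r w)) := by
    intro w
    by_cases hw : r w < m + 3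
    · obtain ⟨y, hy, hwy⟩ := D.dom v w (by rintro rfl; omega)
      have := D.adj y w hwy.symm
      exact ⟨y, Finset.mem_union_left _ (Finset.mem_filter.2 ⟨hy, by omega⟩), hwy⟩
    · obtain ⟨y, hy, hwy⟩ := D.dom u w (by rintro rfl; omega)
      have h1 := D.adj w y hwy
      have h2 := hW1 y hy
      exact ⟨y, Finset.mem_union_right _ (Finset.mem_filter.2 ⟨hy, by omega⟩), hwy⟩
  have h1 := D.low _ hT
  have h2 := Finset.card_union_le ((S v).filter fun w => r w < m + 4)
    ((S u).filter fun w => m + 4 ≤ r w)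
  have h3 := PP_add (r := r) (S u) (m + 4)
  have h4 := D.card u
  have h5 : ((S v).filter fun w => r w < m + 4).card = PP r (S v) (m + 4) := rfl
  omega

lemma PP_top (v : V) : PP r (S v) (d + 1) = (S v).card := by
  unfold PP
  congr 1
  apply Finset.filter_true_of_mem
  intro u _
  have := D.max u
  omega

lemma End1 : QQ G r d + 1 ≤ k := by
  obtain ⟨v, hv⟩ := D.lay d le_rfl
  have h1 := G2 D (m := d) (v := v) (by omega)
  rw [PP_top D] at h1
  have := D.card v
  omega

/-- two elements near the end -/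
lemma two_end (v : V) (hv : r v ≠ d) : ∃ z ∈ S v, ∃ z' ∈ S v, z ≠ z' ∧ d ≤ r z + 1 ∧ d ≤ r z' + 2 := by
  obtain ⟨y, hy⟩ := D.lay d le_rfl
  obtain ⟨z, hz, hyz⟩ := D.dom v y (by rintro rfl; exact hv hy)
  obtain ⟨z', hz', hzz'⟩ := D.dom v z (by rintro rfl; exact D.notMem z hz)
  have h1 := D.adj y z hyz
  have h2 := D.adj z z' hzz'
  exact ⟨z, hz, z', hz', hzz'.ne, by omega, by omega⟩

lemma End4 (hd : 3 ≤ d) : QQ G r (d - 3) + 3 ≤ k := by
  obtain ⟨v, hv⟩ := D.lay (d - 3) (by omega)
  have h1 := G2 D (m := d - 3) (v := v) (by omega)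
  obtain ⟨z, hz, z', hz', hne, h2, h3⟩ := two_end D v (by omega)
  have h4 := PP_add (r := r) (S v) (d - 3 + 1)
  have h5 : 2 ≤ ((S v).filter fun u => d - 3 + 1 ≤ r u).card := by
    have : ({z, z'} : Finset V) ⊆ (S v).filter fun u => d - 3 + 1 ≤ r u := by
      intro w hw
      rw [Finset.mem_insert, Finset.mem_singleton] at hw
      rcases hw with rfl | rfl
      · exact Finset.mem_filter.2 ⟨hz, by omega⟩
      · exact Finset.mem_filter.2 ⟨hz', by omega⟩
    have h6 := Finset.card_le_card this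
    rwa [Finset.card_pair hne] at h6
  have := D.card v
  omega

lemma Q1 : 1 ≤ QQ G r 1 := by
  obtain ⟨X, hX, hX1, hX2⟩ := QQ_spec D 1
  obtain ⟨v, hv⟩ := D.lay 0 (Nat.zero_le _)
  obtain ⟨u, hu, -⟩ := hX2 v (by omega)
  rw [← hX]
  exact Finset.card_pos.2 ⟨u, hu⟩

lemma Q2 : 2 ≤ QQ G r 2 := by
  obtain ⟨X, hX, hX1, hX2⟩ := QQ_spec D 2
  obtain ⟨v, hv⟩ := D.lay 0 (Nat.zero_le _)
  obtain ⟨u, hu, hvu⟩ := hX2 v (by omega)
  have := D.adj u v hvu.symm
  obtain ⟨w, hw, huw⟩ := hX2 u (by omega)
  rw [← hX]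
  exact Finset.one_lt_card.2 ⟨u, hu, w, hw, huw.ne⟩

/-- the lower bounds for `QQ` -/
lemma Qlow : ∀ a s : ℕ, s < 5 → 5 * a + s ≤ d + 1 → 3 ≤ d →
    3 * a + (if s = 0 then 0 else if s = 1 then 1 else if s = 4 then 3 else 2) ≤
      QQ G r (5 * a + s) := by
  intro a
  induction a with
  | zero =>
    intro s hs hd hd3
    have q1 := Q1 D
    have q2 := Q2 D
    have q3 := R2 D (m := 1) (by omega)
    have q4 := R2 D (m := 2) (by omega)
    norm_num at q3 q4
    interval_cases s
    · simp
    · simpa using q1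
    · simpa using q2
    · simp only [mul_zero, zero_add]; norm_num; omega
    · simp only [mul_zero, zero_add]; norm_num; omega
  | succ a ih =>
    intro s hs hd hd3
    have h1 := ih s hs (by omega) hd3
    have h2 := R5 D (m := 5 * a + s) (by omega)
    rw [show 5 * (a + 1) + s = 5 * a + s + 5 by ring]
    omega

theorem upper (hk : 4 ≤ k) : 3 * d + 7 ≤ 5 * k := by
  rcases Nat.lt_or_ge d 3 with hd | hd
  · omega
  have e4 := End4 D hd
  obtain ⟨j, s, hs, hjs⟩ : ∃ j s, s < 5 ∧ d = 5 * j + s := ⟨d / 5, d % 5, by omega, by omega⟩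
  interval_cases s
  · obtain ⟨i, rfl⟩ : ∃ i, j = i + 1 := ⟨j - 1, by omega⟩
    have := Qlow D i 2 (by norm_num) (by omega) hd
    norm_num at this
    rw [show d - 3 = 5 * i + 2 by omega] at e4
    omega
  · obtain ⟨i, rfl⟩ : ∃ i, j = i + 1 := ⟨j - 1, by omega⟩
    have := Qlow D i 3 (by norm_num) (by omega) hd
    norm_num at this
    rw [show d - 3 = 5 * i + 3 by omega] at e4
    omega
  · obtain ⟨i, rfl⟩ : ∃ i, j = i + 1 := ⟨j - 1, by omega⟩
    have := Qlow D i 4 (by norm_num) (by omega) hd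
    norm_num at this
    rw [show d - 3 = 5 * i + 4 by omega] at e4
    omega
  · -- the critical case
    have hq := Qlow D j 0 (by norm_num) (by omega) hd
    norm_num at hq
    rw [show d - 3 = 5 * j by omega] at e4
    rcases Nat.eq_zero_or_pos j with rfl | hj
    · omega
    by_contra hcon
    have hk3 : k = 3 * j + 3 := by omega
    obtain ⟨i, rfl⟩ : ∃ i, j = i + 1 := ⟨j - 1, by omega⟩
    have e1 := End1 D
    have r1 := R2 D (m := 5 * (i + 1) + 1) (by omega)
    rw [show 5 * (i + 1) + 1 + 2 = d by omega] at r1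
    obtain ⟨v, hv⟩ := D.lay (5 * i + 4) (by omega)
    -- the sizes
    have p1 := G1 D (m := 5 * (i + 1)) (v := v) (by omega)
    have p2 := G2 D (m := 5 * i + 4) (v := v) (by omega)
    have q4 := Qlow D i 4 (by norm_num) (by omega) hd
    norm_num at q4
    rw [show 5 * i + 4 + 1 = 5 * (i + 1) by ring] at p2
    have p3 := G1 D (m := 5 * i + 4) (v := v) (by omega)
    rw [show 5 * i + 4 + 1 = 5 * (i + 1) by ring] at p3
    have p4 := G2 D (m := 5 * i + 2) (v := v) (by omega)
    have q2 := Qlow D i 2 (by norm_num) (by omega) hd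
    norm_num at q2
    have d1 := PP_diff (r := r) (S v) (m := 5 * i + 2 + 1) (n := 5 * i + 4) (by omega)
    have d2 := PP_diff (r := r) (S v) (m := 5 * i + 4) (n := 5 * (i + 1)) (by omega)
    have d3 := PP_add (r := r) (S v) (5 * (i + 1))
    have hc := D.card v
    -- no element at level `5 i + 3`, one at level `5 i + 4`, two above
    have c1 : ((S v).filter fun u => 5 * i + 2 + 1 ≤ r u ∧ r u < 5 * i + 4).card = 0 := by omega
    have c2 : ((S v).filter fun u => 5 * i + 4 ≤ r u ∧ r u < 5 * (i + 1)).card = 1 := by omega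
    have c3 : ((S v).filter fun u => 5 * (i + 1) ≤ r u).card = 2 := by omega
    obtain ⟨w, hw⟩ := Finset.card_eq_one.1 c2
    have hwm : w ∈ (S v).filter fun u => 5 * i + 4 ≤ r u ∧ r u < 5 * (i + 1) := by
      rw [hw]; exact Finset.mem_singleton_self w
    obtain ⟨hwS, hwr⟩ := Finset.mem_filter.1 hwm
    obtain ⟨w', hw', hww'⟩ := D.dom v w (by rintro rfl; exact D.notMem w hwS)
    have a1 := D.adj w w' hww'
    have a2 := D.adj w' w hww'.symm
    obtain ⟨z, hz, z', hz', hne, b1, b2⟩ := two_end D v (by omega)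
    have hpair : ({z, z'} : Finset V) = (S v).filter fun u => 5 * (i + 1) ≤ r u := by
      apply Finset.eq_of_subset_of_card_le
      · intro t ht
        rw [Finset.mem_insert, Finset.mem_singleton] at ht
        rcases ht with rfl | rfl
        · exact Finset.mem_filter.2 ⟨hz, by omega⟩
        · exact Finset.mem_filter.2 ⟨hz', by omega⟩
      · rw [c3, Finset.card_pair hne]
    have hcases : r w' = 5 * i + 3 ∨ r w' = 5 * i + 4 ∨ r w' = 5 * (i + 1) := by omega
    rcases hcases with h | h | h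
    · have : w' ∈ (S v).filter fun u => 5 * i + 2 + 1 ≤ r u ∧ r u < 5 * i + 4 :=
        Finset.mem_filter.2 ⟨hw', by omega⟩
      rw [Finset.card_eq_zero.1 c1] at this
      simp at this
    · have : w' ∈ (S v).filter fun u => 5 * i + 4 ≤ r u ∧ r u < 5 * (i + 1) :=
        Finset.mem_filter.2 ⟨hw', by omega⟩
      rw [hw, Finset.mem_singleton] at this
      exact hww'.ne this.symm
    · have : w' ∈ (S v).filter fun u => 5 * (i + 1) ≤ r u :=
        Finset.mem_filter.2 ⟨hw', by omega⟩
      rw [← hpair, Finset.mem_insert, Finset.mem_singleton] at this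
      rcases this with rfl | rfl <;> omega
  · have := Qlow D j 1 (by norm_num) (by omega) hd
    norm_num at this
    rw [show d - 3 = 5 * j + 1 by omega] at e4
    omega

end abstract

end Pool.Agent.MP_64f7e5_co
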